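import Pool.Agent.Helper10.AB.GoalsF2

/-!
Project AB, packet FM/EXT NRM.
-/

open MeasureTheory Set Filter Topology
open scoped ContDiff

noncomputable section

namespace Pool.Agent.Helper87.AB

open Pool.Agent.Helper24.AB
open Pool.Agent.Helper10.AB
open Pool.Agent.Helper15.AB (S_XI S_ATL XiI)

theorem Bs_subset (a x : ℝ) (ha : 0 < a) : Bs a x ⊆ Metric.closedBall (0 : Fin 3 → ℝ) a := by
  intro ζ hζ
  have h : ζ 0 ^ 2 + ζ 1 ^ 2 + ζ 2 ^ 2 < a ^ 2 - x ^ 2 := hζ
  rw [mem_closedBall_zero_iff, pi_norm_le_iff_of_nonneg ha.le]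
  intro i
  rw [Real.norm_eq_abs]
  apply abs_le_of_sq_le_sq _ ha.le
  have h0 := sq_nonneg (ζ 0)
  have h1 := sq_nonneg (ζ 1)
  have h2 := sq_nonneg (ζ 2)
  have hx := sq_nonneg x
  fin_cases i
  · show ζ 0 ^ 2 ≤ a ^ 2
    linarith
  · show ζ 1 ^ 2 ≤ a ^ 2
    linarith
  · show ζ 2 ^ 2 ≤ a ^ 2
    linarith

theorem cont_XX (a A : ℝ) (s : ℝ → ℝ) (p : ℂ → ℝ) (w : ℂ) (i : Fin 3) :
    Continuous (fun ζ : Fin 3 → ℝ => XX a A s p (w, ζ) i) := by
  fin_cases i
  · show Continuous (fun ζ : Fin 3 → ℝ =>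
      ph * (Real.exp (kap * w.im) * (A + Real.sqrt (Atl a A s w.re) * ζ 0) - p w) +
      ph' * (Real.exp (-(kap * w.im)) * (2 * A * ζ 1)))
    fun_prop
  · show Continuous (fun ζ : Fin 3 → ℝ =>
      (Real.exp (kap * w.im) * (A + Real.sqrt (Atl a A s w.re) * ζ 0) - p w) +
      Real.exp (-(kap * w.im)) * (2 * A * ζ 1))
    fun_prop
  · show Continuous (fun ζ : Fin 3 → ℝ => 2 * A * ζ 2)
    fun_prop

theorem Jd_id (J : Fin 3 → ℤ) (X : Fin 3 → ℝ) :
    alp J * ((X 0 - ph' * X 1) / Real.sqrt 5) + alp' J * ((ph * X 1 - X 0) / Real.sqrt 5) +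
      J 2 * X 2 = Jd J X := by
  have h5 : Real.sqrt 5 ≠ 0 := by positivity
  unfold alp alp' Jd ph ph'
  field_simp
  ring

theorem nrm : S_ATL → S_EQV → S_MAP → S_PHI3 → S_NRM := by
  intro hATL _ hMAP hPHI3 a A δ₀ ρ₀ s p B hD
  obtain ⟨hAs, hApos, -, -⟩ := hATL a A s hD.prof
  have ha := hD.prof.a_pos
  have hA := hD.prof.A_pos
  obtain ⟨-, hP2, hP3⟩ := hPHI3 a A δ₀ ρ₀ s p B hD.prof hD.pot
  have hkc : Continuous (kJ a A s) := by
    unfold kJ
    exact continuous_const.mul (Real.continuous_sqrt.comp hAs.continuous)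
  have hkpos : ∀ x, 0 < kJ a A s x := by
    intro x
    unfold kJ
    have := Real.sqrt_pos.mpr (hApos x)
    positivity
  refine ⟨?_, hP2, ⟨hkc, hkpos⟩, ?_⟩
  · intro J w hw
    constructor
    · have hcont : Continuous (fun ζ : Fin 3 → ℝ =>
          kJ a A s w.re * Real.exp (2 * Jd J (XX a A s p (w, ζ)))) := by
        unfold Jd
        have h0 := cont_XX a A s p w 0
        have h1 := cont_XX a A s p w 1
        have h2 := cont_XX a A s p w 2
        fun_prop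
      have hcpt : IsCompact (Metric.closedBall (0 : Fin 3 → ℝ) a) := isCompact_closedBall _ _
      exact (hcont.continuousOn.integrableOn_compact hcpt).mono_set (Bs_subset a w.re ha)
    · have h1 := (hMAP a A δ₀ ρ₀ s p B hD).2 (fun X => Real.exp (2 * Jd J X)) w hw
      have h2 := hP3 (alp J) (alp' J) (J 2) w hw
      rw [← h1]
      show _ = Real.exp (-(2 * Phi a A s p (alp J) (alp' J) (J 2) w))
      rw [h2]
      congr 1
      funext X
      rw [Jd_id]
  · obtain ⟨C, hC⟩ := (isCompact_Icc (a := -a) (b := a)).exists_bound_of_continuousOn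
      hkc.continuousOn
    have hfin : volume (Metric.closedBall (0 : Fin 3 → ℝ) a) < ⊤ :=
      (isCompact_closedBall (0 : Fin 3 → ℝ) a).measure_lt_top
    refine ⟨C * (volume (Metric.closedBall (0 : Fin 3 → ℝ) a)).toReal, ?_⟩
    intro x hx
    have h1 := hC x ⟨(abs_lt.mp hx).1.le, (abs_lt.mp hx).2.le⟩
    rw [Real.norm_eq_abs, abs_of_pos (hkpos x)] at h1
    have h2 : (volume (Bs a x)).toReal ≤ (volume (Metric.closedBall (0 : Fin 3 → ℝ) a)).toReal :=
      ENNReal.toReal_mono hfin.ne (measure_mono (Bs_subset a x ha))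
    exact mul_le_mul h1 h2 ENNReal.toReal_nonneg ((hkpos x).le.trans h1)

end Pool.Agent.Helper87.AB
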