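import Pool.Agent.Helper24.AB.AN.Goals

/-! # Project AB, packet URAP -/

open MeasureTheory Set Filter Topology
open scoped ContDiff ENNReal NNReal

noncomputable section

namespace Pool.Agent.Helper87.AB

open Pool.Agent.Helper24.AB

theorem measStrip (a : ℝ) : MeasurableSet (strip a) := by
  have : IsOpen (strip a) := by
    unfold strip
    exact isOpen_lt (continuous_abs.comp Complex.continuous_re) continuous_const
  exact this.measurableSet

section
variable {a : ℝ} {ι : Type} {W : ι → ℝ → ℝ} (hW : IsWt W)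

include hW in
theorem W_pos (j : ι) (t : ℝ) : 0 < W j t := lt_of_lt_of_le one_pos (hW.one_le j t)

include hW in
theorem measW (N : ℕ) (j : ι) {X : ℂ → ℂ} (hX : AEStronglyMeasurable X (muS a)) :
    AEStronglyMeasurable (fun w => ((W j w.im) ^ N : ℝ) • X w) (muS a) := by
  have h : Continuous (fun w : ℂ => (W j w.im) ^ N) :=
    ((hW.cont j).comp Complex.continuous_im).pow N
  exact (h.aestronglyMeasurable).smul hX

theorem mp (h : ℝ) : MeasurePreserving (fun w : ℂ => w + h * Complex.I) (muS a) (muS a) := by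
  have h0 : MeasurePreserving (fun w : ℂ => w + h * Complex.I) volume volume :=
    measurePreserving_add_right volume _
  have h1 := h0.restrict_preimage (measStrip a)
  have h2 : (fun w : ℂ => w + h * Complex.I) ⁻¹' strip a = strip a := by
    ext w
    simp [strip]
  rw [h2] at h1
  exact h1

include hW in
theorem W_shift (j : ι) (t h : ℝ) (h0 : 0 < h) (h1 : h ≤ 1) :
    W j t ≤ Real.exp 1 * W j (t + h) := by
  have := hW.slow j (t + h) (-h)
  have e : t + h + -h = t := by ring
  rw [e] at this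
  refine this.trans ?_
  refine mul_le_mul_of_nonneg_right ?_ (W_pos hW j _).le
  apply Real.exp_le_exp.2
  rw [abs_neg, abs_of_pos h0]
  exact h1

include hW in
theorem W_shift' (j : ι) (t h : ℝ) (h0 : 0 < h) (h1 : h ≤ 1) :
    W j (t + h) ≤ Real.exp 1 * W j t := by
  have := hW.slow j t h
  refine this.trans ?_
  refine mul_le_mul_of_nonneg_right ?_ (W_pos hW j _).le
  apply Real.exp_le_exp.2
  rw [abs_of_pos h0]
  exact h1

end

theorem urap : S_URAP := by
  intro a ι W ha hW
  refine ⟨?_, ?_, ?_, ?_, ?_, ?_, ?_⟩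
  · rintro X Y ⟨hX, hX'⟩ ⟨hY, hY'⟩
    refine ⟨fun j => (hX j).add (hY j), fun N => ?_⟩
    obtain ⟨C, hC⟩ := hX' N
    obtain ⟨D, hD⟩ := hY' N
    refine ⟨C + D, fun j => ?_⟩
    have e : (fun w => ((W j w.im) ^ N : ℝ) • (X j w + Y j w)) =
        (fun w => ((W j w.im) ^ N : ℝ) • X j w) + (fun w => ((W j w.im) ^ N : ℝ) • Y j w) := by
      funext w
      simp [smul_add]
    rw [e]
    refine (eLpNorm_add_le (measW hW N j (hX j)) (measW hW N j (hY j)) (by norm_num)).trans ?_
    push_cast
    exact add_le_add (hC j) (hD j)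
  · rintro X Y ⟨hX, hX'⟩ ⟨hY, hY'⟩
    refine ⟨fun j => (hX j).sub (hY j), fun N => ?_⟩
    obtain ⟨C, hC⟩ := hX' N
    obtain ⟨D, hD⟩ := hY' N
    refine ⟨C + D, fun j => ?_⟩
    have e : (fun w => ((W j w.im) ^ N : ℝ) • (X j w - Y j w)) =
        (fun w => ((W j w.im) ^ N : ℝ) • X j w) - (fun w => ((W j w.im) ^ N : ℝ) • Y j w) := by
      funext w
      simp [smul_sub]
    rw [e]
    refine (eLpNorm_sub_le (measW hW N j (hX j)) (measW hW N j (hY j)) (by norm_num)).trans ?_
    push_cast
    exact add_le_add (hC j) (hD j)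
  · rintro c X ⟨hc, C0, N0, hc'⟩ ⟨hX, hX'⟩
    refine ⟨fun j => ((hc j).aestronglyMeasurable (measStrip a)).mul (hX j), fun N => ?_⟩
    obtain ⟨C, hC⟩ := hX' (N + N0)
    refine ⟨Real.toNNReal |C0| * C, fun j => ?_⟩
    refine (eLpNorm_le_mul_eLpNorm_of_ae_le_mul (c := |C0|)
      (g := fun w => ((W j w.im) ^ (N + N0) : ℝ) • X j w) ?_ 2).trans ?_
    · refine (ae_restrict_iff' (measStrip a)).2 (Eventually.of_forall fun w hw => ?_)
      have h1 := hc' j w hw
      have h2 := W_pos hW j w.im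
      rw [norm_smul, norm_smul, norm_mul, Real.norm_of_nonneg (pow_pos h2 N).le,
        Real.norm_of_nonneg (pow_pos h2 (N + N0)).le, pow_add]
      have h3 : ‖c j w‖ ≤ |C0| * W j w.im ^ N0 :=
        h1.trans (mul_le_mul_of_nonneg_right (le_abs_self C0) (pow_pos h2 N0).le)
      calc W j w.im ^ N * (‖c j w‖ * ‖X j w‖)
          ≤ W j w.im ^ N * (|C0| * W j w.im ^ N0 * ‖X j w‖) := by
            gcongr
        _ = |C0| * (W j w.im ^ N * W j w.im ^ N0 * ‖X j w‖) := by ring
    · push_cast
      exact mul_le_mul' le_rfl (hC j)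
  · rintro h X hh ⟨hX, hX'⟩
    have hmp : ∀ j, MeasurePreserving (fun w : ℂ => w + (h j : ℝ) * Complex.I) (muS a) (muS a) :=
      fun j => mp (h j)
    refine ⟨fun j => (hX j).comp_measurePreserving (hmp j), fun N => ?_⟩
    obtain ⟨C, hC⟩ := hX' N
    refine ⟨Real.toNNReal (Real.exp 1 ^ N) * C, fun j => ?_⟩
    refine (eLpNorm_le_mul_eLpNorm_of_ae_le_mul (c := Real.exp 1 ^ N)
      (g := (fun w => ((W j w.im) ^ N : ℝ) • X j w) ∘ (fun w : ℂ => w + (h j : ℝ) * Complex.I))
      ?_ 2).trans ?_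
    · refine Eventually.of_forall fun w => ?_
      have h2 := W_pos hW j w.im
      have h3 := W_pos hW j (w.im + h j)
      have e : (w + (h j : ℝ) * Complex.I).im = w.im + h j := by simp
      simp only [Function.comp_apply, tauh]
      rw [norm_smul, norm_smul, e, Real.norm_of_nonneg (pow_pos h2 N).le,
        Real.norm_of_nonneg (pow_pos h3 N).le, ← mul_assoc]
      refine mul_le_mul_of_nonneg_right ?_ (norm_nonneg _)
      rw [← mul_pow]
      exact pow_le_pow_left₀ h2.le (W_shift hW j _ _ (hh j).1 (hh j).2) N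
    · rw [eLpNorm_comp_measurePreserving (measW hW N j (hX j)) (hmp j)]
      push_cast
      exact mul_le_mul' le_rfl (hC j)
  · rintro c ⟨hc, C0, N0, hc'⟩
    refine ⟨fun j => (Complex.continuous_conj.comp_continuousOn (hc j)), C0, N0, fun j w hw => ?_⟩
    rw [RCLike.norm_conj]
    exact hc' j w hw
  · rintro h c hh ⟨hc, C0, N0, hc'⟩
    have hs : ∀ (t : ℝ) (w : ℂ), w ∈ strip a → w + (t : ℝ) * Complex.I ∈ strip a := by
      intro t w hw
      simpa [strip] using hw
    refine ⟨fun j => ?_, |C0| * Real.exp 1 ^ N0, N0, fun j w hw => ?_⟩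
    · unfold tauh
      exact (hc j).comp (by fun_prop) (fun w hw => hs _ w hw)
    · have h1 := hc' j _ (hs (h j) w hw)
      have e : (w + (h j : ℝ) * Complex.I).im = w.im + h j := by simp
      have h2 := W_pos hW j w.im
      have h3 := W_pos hW j (w.im + h j)
      rw [e] at h1
      unfold tauh
      refine h1.trans ?_
      calc C0 * W j (w.im + h j) ^ N0 ≤ |C0| * W j (w.im + h j) ^ N0 :=
            mul_le_mul_of_nonneg_right (le_abs_self C0) (pow_pos h3 N0).le
        _ ≤ |C0| * (Real.exp 1 * W j w.im) ^ N0 := by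
            refine mul_le_mul_of_nonneg_left ?_ (abs_nonneg _)
            exact pow_le_pow_left₀ h3.le (W_shift' hW j _ _ (hh j).1 (hh j).2) N0
        _ = |C0| * Real.exp 1 ^ N0 * W j w.im ^ N0 := by
            rw [mul_pow]; ring
  · rintro X ⟨hX, hX'⟩ j
    obtain ⟨C, hC⟩ := hX' 0
    refine ⟨hX j, ?_⟩
    have := hC j
    simp only [pow_zero, one_smul] at this
    exact lt_of_le_of_lt this ENNReal.coe_lt_top

end Pool.Agent.Helper87.AB
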